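import Pool.Agent.H148N.Ex

/-!
# Points over every number field of varieties over `E ^ r` lie over few subvarieties

`E : y² = x³ + a x + b` is any elliptic curve over a number field `k` (`a, b ∈ 𝓞 k`; no condition on
the rank or on complex multiplication), `r` is arbitrary, and `X ⊂ E ^ r × ℙ ^ n` is an arbitrary
closed subvariety, given by equations `G_l(V; y) = 0` which are homogeneous in the coordinates
`V_i` of each of the `r` plane cubics `E` and in `y`. The members of the family are
`X_y ⊂ E ^ r`, `y ∈ ℙ ^ n`. For a complex point `S` of `E ^ r` let `Sums G m S ⊂ ℙ ^ n` be the set of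
the `y` such that `S` is the sum of `m` complex points of `X_y`; for `m = 1` this is the fibre of
`X → E ^ r` over `S`.

Part 1. Suppose that for `1 ≤ m ≤ M` and all `S` the dimension of `Sums G m S` is at most `e` (for
`M = 1`: all fibres of `X → E ^ r` have dimension at most `e`). There is a number `D` such that for
EVERY number field `K ⊇ k`, all `ε > 0` and all `B ≥ 1` the points `y ∈ ℙ ^ n (K)` of height at most
`B` for which `X_y` has a point over an extension of `K` of degree at most `M` lie on at most
`C B ^ ε` closed subsets of `ℙ ^ n`, each of dimension at most `e` and given by equations of degree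
at most `D`. In particular every finite grid `S ^ n ⊂ K ^ n` contains at most `C B ^ ε |S| ^ e` such
points of height at most `B`. The points of `X_y` may have any height; `D` does not depend on `K`,
although the rank of `E(K)` is unbounded in general.

So if the image of `X` in `ℙ ^ n` has dimension greater than `e`, then for every number field `K`
the points of `X(K)` over the `y` of height at most `B` (they can have any height over `E ^ r`) lie
on `C B ^ ε` proper closed subsets of `X`, of bounded degree. Lang's conjecture predicts for `X` of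
general type one proper closed subset, independent of `K` and `B`, outside of which there are only
finitely many points.

Part 2 is an explicit class in every dimension and codimension: the complete intersections
`X : ∑_i f_li(P) y_i ^ m = 0` (`l = 1, …, s`) in `E ^ r × ℙ ^ n`, `(f_li)` any `s × (n + 1)` matrix of
forms over `𝓞 k`, the `l`-th row of multidegree `d_l`, which has rank `s` at all complex points of
`E ^ r`. If `X` is smooth, all `d_l` are positive and `s m > n + 1`, then `X` is of general type, of
dimension `r + n - s`. Here `M = 1`, `e = n - s`.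

The extreme cases were known (starting hand-ins of this pool, engines `Pool/Agent/Y213/EC` and
`Pool/Agent/Y213/BD`): `e = 0`, and hypersurfaces (`e = n - 1`, one equation).

Method: Mordell-Weil sieve at the primes at which the reduction of `E` has smooth order (Chebotarev
for the torsion points of `E`), applied to sums of conjugate points; the monomials in any `e + 2`
coordinates are linearly dependent modulo each such prime, with an ultraproduct for the uniformity;
the determinants then vanish by the size of the product of the primes.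
-/

set_option autoImplicit false

namespace Pool.Agent.Results.MP_7ede32_ag.FewSubvarietiesEveryField

open MvPolynomial NumberField Pool.Agent.H148N

open scoped LinearAlgebra.Projectivization

theorem result :
    -- Part 1: arbitrary closed subvarieties of `E ^ r × ℙ ^ n`
    (∀ (k : Type) [Field k] [NumberField k] (σ : k →+* ℂ) (a b : 𝓞 k),
      4 * a ^ 3 + 27 * b ^ 2 ≠ 0 → ∀ (r n q : ℕ)
      (G : Fin q → MvPolynomial ((Fin r × Fin 3) ⊕ Fin (n + 1)) (𝓞 k))
      (d : Fin q → Fin r → ℕ) (deg : Fin q → ℕ), (∀ l, MultiHomog (G l) (d l) (deg l)) →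
      ∀ M e : ℕ, (∀ m, 1 ≤ m → m ≤ M → ∀ S, DimLE e (Sums σ a b G m S)) →
      ∃ D : ℕ, ∀ (K : Type) [Field K] [NumberField K] [Algebra k K] (ε : ℝ), 0 < ε →
        ∃ C : ℝ, ∀ B : ℝ, 1 ≤ B →
          (∃ 𝒵 : Finset (Set (ℙ K (Fin (n + 1) → K))), (𝒵.card : ℝ) ≤ C * B ^ ε ∧
            (∀ Z ∈ 𝒵, DimDegLE e D Z) ∧
            ∀ y : ℙ K (Fin (n + 1) → K), y.mulHeight ≤ B → HasPoint a b G M y → ∃ Z ∈ 𝒵, y ∈ Z) ∧
          ∀ S : Finset K, S.Nonempty →
            ({t : Fin n → K | (∀ i, t i ∈ S) ∧ (aff t).mulHeight ≤ B ∧
              HasPoint a b G M (aff t)}.ncard : ℝ) ≤ C * B ^ ε * (S.card : ℝ) ^ e) ∧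
    -- Part 2: an explicit class in every dimension and codimension
    (∀ (k : Type) [Field k] [NumberField k] (σ : k →+* ℂ) (a b : 𝓞 k),
      4 * a ^ 3 + 27 * b ^ 2 ≠ 0 → ∀ (r n s m : ℕ), 1 ≤ s → s ≤ n → 1 ≤ m →
      ∀ (f : Fin s → Fin (n + 1) → MvPolynomial (Fin r × Fin 3) (𝓞 k)) (d : Fin s → Fin r → ℕ),
      (∀ l i, IsForm (f l i) (d l)) →
      (∀ V : Fin r → Fin 3 → ℂ, (∀ i, OnE (σ a) (σ b) (V i)) →
        LinearIndependent ℂ (fun (l : Fin s) (i : Fin (n + 1)) =>
          eval₂ (σ.comp (algebraMap (𝓞 k) k)) (fun ij : Fin r × Fin 3 => V ij.1 ij.2) (f l i))) →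
      ∃ D : ℕ, ∀ (K : Type) [Field K] [NumberField K] [Algebra k K] (ε : ℝ), 0 < ε →
        ∃ C : ℝ, ∀ B : ℝ, 1 ≤ B →
          ∃ 𝒵 : Finset (Set (ℙ K (Fin (n + 1) → K))), (𝒵.card : ℝ) ≤ C * B ^ ε ∧
            (∀ Z ∈ 𝒵, DimDegLE (n - s) D Z) ∧
            ∀ y : ℙ K (Fin (n + 1) → K), y.mulHeight ≤ B →
              ∀ V : Fin r → Fin 3 → K,
                (∀ i, OnE (algebraMap k K a) (algebraMap k K b) (V i)) →
                (∀ l, ∑ i, eval₂ ((algebraMap k K).comp (algebraMap (𝓞 k) k))
                  (fun ij : Fin r × Fin 3 => V ij.1 ij.2) (f l i) * y.rep i ^ m = 0) →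
                ∃ Z ∈ 𝒵, y ∈ Z) := by
  refine ⟨fun k _ _ σ a b hE r n q G d deg hG M e hX =>
    fin_main k σ a b hE r n q G d deg hG M e hX, ?_⟩
  intro k _ _ σ a b hE r n s m hs hsn hm f d hf hrk
  obtain ⟨D, hD⟩ := fin_main k σ a b hE r n s (fun l => diag m (f l)) d (fun _ => m)
    (fun l => diag_homog m (f l) (d l) (hf l)) 1 (n - s)
    (diag_sums σ a b hs hsn m hm f hrk)
  refine ⟨D, fun K _ _ _ ε hε => ?_⟩
  obtain ⟨C, hC⟩ := hD K ε hε
  refine ⟨C, fun B hB => ?_⟩
  obtain ⟨⟨𝒵, h1, h2, h3⟩, -⟩ := hC B hB
  refine ⟨𝒵, h1, h2, fun y hy V hV hV0 => h3 y hy ?_⟩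
  refine ⟨K, inferInstance, inferInstance, inferInstance, (Module.finrank_self K).le, V, hV, ?_⟩
  intro l
  rw [eval_diag]
  exact hV0 l

end Pool.Agent.Results.MP_7ede32_ag.FewSubvarietiesEveryField
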