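import Mathlib
import Pool.Agent.Helper201_HF.Strong

set_option autoImplicit false

/-!
# The strong Lang conjecture for sums of elements of a group of finite rank: one constant for all
varieties of bounded degree

Fix `n`, `d` and `r`. For every finitely generated group `Γ` of nonzero algebraic numbers there is ONE
constant `C = C(n, d, r, Γ)` such that the following holds for ALL integral closed subvarieties `X` of
`ℙⁿ` over number fields `k` that are given by forms of degree at most `d` and are not uniruled (for
instance, of general type and positive dimension).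

There is a proper closed subset `Z = X ∩ {G = 0}` of `X`, defined over `k` (it depends only on `X` and
`r`, not on `Γ`), such that for all algebraic numbers `u_1, …, u_r` with a power in `Γ` and ALL vectors
`V_1, …, V_r` of algebraic numbers: if `x = u_1 V_1 + … + u_r V_r` is a point of `X` outside `Z`, then

  `h(x) ≤ C (1 + h(V) + H)`,

and `x` is proportional to a partial sum `∑_{j ∈ J} u_j V_j` with `h((u_j)_{j ∈ J}) ≤ C (1 + h(V) + H)`,
where `H` is a bound for the heights of the equations of `X`. So the points `x` of `X ∖ Z` which have a
representation with `2 C h(V) ≤ h(x) + B` have height at most `2 C (1 + H) + B`, and for every number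
field `K` only finitely many of them are in `X(K)`.

The starting result `FiniteRankSums` has such a bound for one variety `X`, with a constant depending
on `X`; here the constant is the same for all `X`, and the height of `X` enters linearly. The proof
extends the theorem on germs of the library folder `Y215/SK` of the starting repository to equations
with moving coefficients (`Helper201_HF/Core`).
-/

namespace Pool.Agent.Results.MP_7ede32_ag.UniformFiniteRankSums

open MvPolynomial hiding psum
open NumberField Pool.Agent.Helper259.AbsHt Pool.Agent.Y215.SK Pool.Agent.H533R3.SL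
open Pool.Agent.Helper201_HF

theorem result (n d r : ℕ) :
    ∃ C : Subgroup Qbarˣ → ℝ, (∀ Γ, 0 < C Γ) ∧
    ∀ (k : Type) [Field k] [NumberField k] (N : ℕ) (P : Fin N → MvPolynomial (Fin (n + 1)) k),
      (∀ i, ∃ e, e ≤ d ∧ (P i).IsHomogeneous e) → (Ideal.span (Set.range P)).IsPrime →
      ¬ Uniruled (Ideal.span (Set.range P)) →
      ∃ G : MvPolynomial (Fin (n + 1)) k, (∃ e, G.IsHomogeneous e) ∧
        G ∉ Ideal.span (Set.range P) ∧
        ∀ (τ : k →+* Qbar) (H : ℝ), 0 ≤ H → (∀ i, formHeight (map τ (P i)) ≤ H) →
          ∀ Γ : Subgroup Qbarˣ, Γ.FG →
            (∀ (u : Fin r → Qbarˣ) (V : Fin r → Fin (n + 1) → Qbar) (x : Fin (n + 1) → Qbar),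
              (∀ j, u j ∈ DivHull Γ) → (∀ a, x a = ∑ j, (u j : Qbar) * V j a) → x ≠ 0 →
              (∀ i, eval₂ τ x (P i) = 0) → eval₂ τ x G ≠ 0 → Bound (C Γ) H u V x) ∧
            ∀ B : ℝ, (∀ x : Fin (n + 1) → Qbar, CompressibleOff τ P G Γ r (C Γ) B x →
                absLogHeight x ≤ 2 * C Γ * (1 + H) + B) ∧
              ∀ (K : Type) [Field K] [NumberField K] (φ : K →+* Qbar),
                {p : Projectivization K (Fin (n + 1) → K) | ∃ (y : Fin (n + 1) → K) (hy : y ≠ 0),
                  p = Projectivization.mk K y hy ∧
                  CompressibleOff τ P G Γ r (C Γ) B (fun a => φ (y a))}.Finite :=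
  strong n d r

end Pool.Agent.Results.MP_7ede32_ag.UniformFiniteRankSums
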